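import Pool.Agent.Helper49.LC.St

/-!
Project LC (MP_58b586_gt), module GRP: group properties of the class `HB`.
-/

set_option autoImplicit false

open scoped ContDiff

namespace Pool.Agent.Helper76.LC

open Pool.Agent.Helper14.LK Pool.Agent.Helper49.LC

variable {n : ℕ}

private theorem slice {Φ : ℝ → WW n → WW n} (s : ContDiff ℝ ∞ (Function.uncurry Φ)) (t : ℝ) :
    ContDiff ℝ ∞ (Φ t) :=
  s.comp (contDiff_const.prodMk contDiff_id)

private theorem dif {f : WW n → WW n} (h : ContDiff ℝ ∞ f) (w : WW n) :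
    HasFDerivAt f (fderiv ℝ f w) w :=
  ((h.differentiable (by simp)) w).hasFDerivAt

private theorem comp3 {T f T' : WW n → WW n} (hT : ContDiff ℝ ∞ T) (hf : ContDiff ℝ ∞ f)
    (hT' : ContDiff ℝ ∞ T') (w a : WW n) : fderiv ℝ (fun w => T (f (T' w))) w a =
      fderiv ℝ T (f (T' w)) (fderiv ℝ f (T' w) (fderiv ℝ T' w a)) := by
  have h := (dif hT (f (T' w))).comp w ((dif hf (T' w)).comp w (dif hT' w))
  have h2 : HasFDerivAt (fun w => T (f (T' w))) ((fderiv ℝ T (f (T' w))).comp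
    ((fderiv ℝ f (T' w)).comp (fderiv ℝ T' w))) w := h
  rw [h2.fderiv]
  rfl

private theorem comp2 {f f' : WW n → WW n} (hf : ContDiff ℝ ∞ f)
    (hf' : ContDiff ℝ ∞ f') (w a : WW n) : fderiv ℝ (fun w => f (f' w)) w a =
      fderiv ℝ f (f' w) (fderiv ℝ f' w a) := by
  have h := (dif hf (f' w)).comp w (dif hf' w)
  have h2 : HasFDerivAt (fun w => f (f' w)) ((fderiv ℝ f (f' w)).comp (fderiv ℝ f' w)) w := h
  rw [h2.fderiv]
  rfl

private theorem conj_HB {c c' : WW n} {r r' : ℝ} {f g T T' : WW n → WW n} (κ κ' : ℝ)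
    (hT : ContDiff ℝ ∞ T) (hT' : ContDiff ℝ ∞ T') (h1 : ∀ w, T' (T w) = w) (h2 : ∀ w, T (T' w) = w)
    (hk : κ * κ' = 1) (o : ∀ w a b, om (fderiv ℝ T w a) (fderiv ℝ T w b) = κ * om a b)
    (o' : ∀ w a b, om (fderiv ℝ T' w a) (fderiv ℝ T' w b) = κ' * om a b)
    (hs : ∀ w, r' ≤ ‖w - c'‖ → r ≤ ‖T' w - c‖) (h : HB c r f g) :
    HB c' r' (fun w => T (f (T' w))) (fun w => T (g (T' w))) := by
  obtain ⟨Φ, Φi, s, si, l, ri, sy, z, su, rfl, rfl⟩ := h
  refine ⟨fun t w => T (Φ t (T' w)), fun t w => T (Φi t (T' w)), ?_, ?_, ?_, ?_, ?_, ?_, ?_, rfl, rfl⟩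
  · exact hT.comp (s.comp (contDiff_fst.prodMk (hT'.comp contDiff_snd)))
  · exact hT.comp (si.comp (contDiff_fst.prodMk (hT'.comp contDiff_snd)))
  · intro t w
    simp only [h1, l, h2]
  · intro t w
    simp only [h1, ri, h2]
  · intro t w a b
    have e := fun a => comp3 hT (slice s t) hT' w a
    change om (fderiv ℝ (fun w => T (Φ t (T' w))) w a) (fderiv ℝ (fun w => T (Φ t (T' w))) w b) = _
    rw [e, e, o, sy, o', ← mul_assoc, hk, one_mul]
  · intro w
    simp only [z, h2]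
  · intro t w hw
    simp only [su t _ (hs w hw), h2]

private theorem inv_HB {c : WW n} {r : ℝ} {f g : WW n → WW n} (h : HB c r f g) : HB c r g f := by
  obtain ⟨Φ, Φi, s, si, l, ri, sy, z, su, rfl, rfl⟩ := h
  refine ⟨Φi, Φ, si, s, ri, l, ?_, ?_, ?_, rfl, rfl⟩
  · intro t w a b
    have e : ∀ a, fderiv ℝ (Φ t) (Φi t w) (fderiv ℝ (Φi t) w a) = a := by
      intro a
      rw [← comp2 (slice s t) (slice si t) w a]
      have h : (fun w => Φ t (Φi t w)) = fun w => w := by
        funext w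
        exact ri t w
      rw [h]
      simp
    rw [← sy t (Φi t w), e, e]
  · intro w
    have := l 0 w
    rwa [z] at this
  · intro t w hw
    have := l t w
    rwa [su t w hw] at this

private theorem ball_HB {c : WW n} {r : ℝ} {f g : WW n → WW n} (h : HB c r f g) (w : WW n)
    (hw : ‖w - c‖ ≤ r) : ‖f w - c‖ ≤ r := by
  obtain ⟨Φ, Φi, s, si, l, ri, sy, z, su, rfl, rfl⟩ := h
  by_contra hcon
  push Not at hcon
  have h1 := su 1 (Φ 1 w) hcon.le
  have h2 := l 1 (Φ 1 w)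
  rw [h1, l] at h2
  rw [← h2] at hcon
  exact absurd hw (not_le.mpr hcon)

private theorem tm_smooth (a : EE n) (s : ℝ) : ContDiff ℝ ∞ (tm a s) := by
  unfold tm
  fun_prop

private theorem ti_smooth (a : EE n) (s : ℝ) : ContDiff ℝ ∞ (ti a s) := by
  unfold ti
  fun_prop

private theorem tm_fderiv (a : EE n) (s : ℝ) (w b : WW n) : fderiv ℝ (tm a s) w b = s • b := by
  have h : HasFDerivAt (tm a s) (s • ContinuousLinearMap.id ℝ (WW n)) w := by
    unfold tm
    exact ((hasFDerivAt_id w).const_smul s).const_add _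
  rw [h.fderiv]
  rfl

private theorem ti_fderiv (a : EE n) (s : ℝ) (w b : WW n) : fderiv ℝ (ti a s) w b = s⁻¹ • b := by
  have h : HasFDerivAt (ti a s) (s⁻¹ • ContinuousLinearMap.id ℝ (WW n)) w := by
    unfold ti
    exact ((hasFDerivAt_id w).sub_const _).const_smul s⁻¹
  rw [h.fderiv]
  rfl

private theorem ti_tm (a : EE n) {s : ℝ} (hs : s ≠ 0) (w : WW n) : ti a s (tm a s w) = w := by
  unfold ti tm
  rw [add_sub_cancel_left, smul_smul, inv_mul_cancel₀ hs, one_smul]

private theorem tm_ti (a : EE n) {s : ℝ} (hs : s ≠ 0) (w : WW n) : tm a s (ti a s w) = w := by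
  unfold ti tm
  rw [smul_smul, mul_inv_cancel₀ hs, one_smul, add_sub_cancel]

theorem hGRP : StGRP := by
  refine ⟨?_, ?_, ?_, ?_, ?_, ?_, ?_⟩
  · intro n c r
    refine ⟨fun _ w => w, fun _ w => w, contDiff_snd, contDiff_snd, fun _ _ => rfl, fun _ _ => rfl,
      ?_, fun _ => rfl, fun _ _ _ => rfl, rfl, rfl⟩
    intro t w a b
    simp
  · rintro n c c' r r' f g ⟨Φ, Φi, s, si, l, ri, sy, z, su, h1, h2⟩ h
    exact ⟨Φ, Φi, s, si, l, ri, sy, z, fun t w hw => su t w (h w hw), h1, h2⟩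
  · rintro n c r f g f' g' ⟨Φ, Φi, s, si, l, ri, sy, z, su, rfl, rfl⟩
      ⟨Ψ, Ψi, s', si', l', ri', sy', z', su', rfl, rfl⟩
    refine ⟨fun t w => Φ t (Ψ t w), fun t w => Ψi t (Φi t w), ?_, ?_, ?_, ?_, ?_, ?_, ?_, rfl, rfl⟩
    · exact s.comp (contDiff_fst.prodMk s')
    · exact si'.comp (contDiff_fst.prodMk si)
    · intro t w
      simp only [l, l']
    · intro t w
      simp only [ri, ri']
    · intro t w a b
      have e := fun a => comp2 (slice s t) (slice s' t) w a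
      change om (fderiv ℝ (fun w => Φ t (Ψ t w)) w a) (fderiv ℝ (fun w => Φ t (Ψ t w)) w b) = _
      rw [e, e, sy, sy']
    · intro w
      simp only [z, z']
    · intro t w hw
      simp only [su' t w hw, su t w hw]
  · intro n c r f g h
    exact inv_HB h
  · intro n c r f g a s hs h
    refine conj_HB (s ^ 2) ((s⁻¹) ^ 2) (tm_smooth a s) (ti_smooth a s) (ti_tm a hs.ne')
      (tm_ti a hs.ne') ?_ ?_ ?_ ?_ h
    · rw [← mul_pow, mul_inv_cancel₀ hs.ne', one_pow]
    · intro w x y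
      rw [tm_fderiv, tm_fderiv, om_smul_left, om_smul_right]
      ring
    · intro w x y
      rw [ti_fderiv, ti_fderiv, om_smul_left, om_smul_right]
      ring
    · intro w hw
      have h1 : w - tm a s c = s • (ti a s w - c) := by
        unfold tm ti
        rw [smul_sub, smul_smul, mul_inv_cancel₀ hs.ne', one_smul]
        abel
      rw [h1, norm_smul, Real.norm_of_nonneg hs.le] at hw
      exact le_of_mul_le_mul_left hw hs
  · intro n c r f g h
    refine ⟨?_, ?_, ?_⟩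
    · obtain ⟨Φ, Φi, s, si, l, ri, sy, z, su, rfl, rfl⟩ := h
      exact ⟨slice s 1, slice si 1, l 1, ri 1, sy 1⟩
    · intro w hw
      have h' := inv_HB h
      obtain ⟨Φ, Φi, s, si, l, ri, sy, z, su, e1, e2⟩ := h
      obtain ⟨Ψ, Ψi, s', si', l', ri', sy', z', su', e1', e2'⟩ := h'
      exact ⟨by rw [← e1]; exact su 1 w hw, by rw [← e1']; exact su' 1 w hw⟩
    · intro w hw
      exact ⟨ball_HB h w hw, ball_HB (inv_HB h) w hw⟩
  · intro n r f g M hM h
    refine ⟨‖(M : WW n →L[ℝ] WW n)‖ * |r| + 1, ?_⟩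
    refine conj_HB 1 1 M.contDiff M.symm.contDiff (fun w => M.symm_apply_apply w)
      (fun w => M.apply_symm_apply w) (by norm_num) ?_ ?_ ?_ h
    · intro w a b
      rw [one_mul]
      have e : ∀ a, fderiv ℝ (fun w => M w) w a = M a := by
        intro a
        rw [M.fderiv]
        rfl
      rw [e, e, hM]
    · intro w a b
      rw [one_mul]
      have e : ∀ a, fderiv ℝ (fun w => M.symm w) w a = M.symm a := by
        intro a
        rw [M.symm.fderiv]
        rfl
      rw [e, e, ← hM, M.apply_symm_apply, M.apply_symm_apply]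
    · intro w hw
      rw [sub_zero] at hw ⊢
      by_contra hcon
      push Not at hcon
      have h1 : ‖w‖ ≤ ‖(M : WW n →L[ℝ] WW n)‖ * ‖M.symm w‖ := by
        have := (M : WW n →L[ℝ] WW n).le_opNorm (M.symm w)
        simpa using this
      have h2 : ‖M.symm w‖ ≤ |r| := hcon.le.trans (le_abs_self r)
      have h3 : ‖(M : WW n →L[ℝ] WW n)‖ * ‖M.symm w‖ ≤ ‖(M : WW n →L[ℝ] WW n)‖ * |r| :=
        mul_le_mul_of_nonneg_left h2 (norm_nonneg _)
      linarith

end Pool.Agent.Helper76.LC
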